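import Pool.Agent.Y223.G.Stm4
import Pool.Agent.Y215.G.Indd

/-!
Project G, job G4-IND2: regular parameters from étale coordinates, general version.
-/

set_option autoImplicit false

namespace Pool.Agent.Y514.G

open IsLocalRing KaehlerDifferential Algebra Pool.Agent.Y223.G Pool.Agent.W418.LU2
open Pool.Agent.Y215.G (ind_core ind_of_equiv)

/-- Regular parameters from étale coordinates: a subset of the coordinates. -/
theorem t_IND2 : S_IND2 := by
  intro O K _ _ _ _ _ C hft hreg Q _ ι κ _ _ v f hf hE 𝔓 h𝔓 hne π hπ hπ2 hQ hw
  obtain ⟨g, hg, hE⟩ := hE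
  set T := Localization.Away g with hT
  have hdisj : Disjoint (Submonoid.powers g : Set C) (Q : Set C) := by
    rwa [Ideal.disjoint_powers_iff_notMem_of_isPrime]
  have hpp : (Q.map (algebraMap C T)).IsPrime :=
    IsLocalization.isPrime_of_isPrime_disjoint (.powers g) _ _ ‹_› hdisj
  have hcomap : (Q.map (algebraMap C T)).comap (algebraMap C T) = Q :=
    IsLocalization.under_map_of_isPrime_disjoint (.powers g) T ‹_› hdisj
  have hcomp : (MvPolynomial.aeval (fun j : ι => algebraMap C T (v j)) :
      MvPolynomial ι O →ₐ[O] T).toRingHom = (algebraMap C T).comp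
      (MvPolynomial.aeval v : MvPolynomial ι O →ₐ[O] C).toRingHom := by
    apply MvPolynomial.ringHom_ext
    · intro o
      change MvPolynomial.aeval _ (MvPolynomial.C o) =
        algebraMap C T (MvPolynomial.aeval _ (MvPolynomial.C o))
      rw [MvPolynomial.aeval_C, MvPolynomial.aeval_C, ← IsScalarTower.algebraMap_apply O C T]
    · intro j
      change MvPolynomial.aeval _ (MvPolynomial.X j) =
        algebraMap C T (MvPolynomial.aeval _ (MvPolynomial.X j))
      rw [MvPolynomial.aeval_X, MvPolynomial.aeval_X]
  rw [← hcomp] at hE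
  have hQT : (Q.map (algebraMap C T)).comap (algebraMap O T) = 𝔓 := by
    rw [IsScalarTower.algebraMap_eq O C T, ← Ideal.comap_comap, hcomap, hQ]
  have key := ind_core (fun j : ι => algebraMap C T (v j)) hE
    (Q.map (algebraMap C T)) 𝔓 h𝔓 π hπ hπ2 hQT f hf
    (fun k => Ideal.mem_map_of_mem _ (hw k))
  have hloc := IsLocalization.isLocalization_isLocalization_atPrime_isLocalization (.powers g)
    (Localization.AtPrime (Q.map (algebraMap C T))) (Q.map (algebraMap C T))
  simp only [hcomap] at hloc
  let e : Localization.AtPrime Q ≃ₐ[C] Localization.AtPrime (Q.map (algebraMap C T)) :=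
    IsLocalization.algEquiv Q.primeCompl _ _
  apply ind_of_equiv e.toRingEquiv
  have hfun : (fun i : Option κ => e.toRingEquiv (algebraMap C (Localization.AtPrime Q)
      (i.elim (algebraMap O C π) fun j => v (f j)))) =
      (fun i : Option κ => algebraMap T (Localization.AtPrime (Q.map (algebraMap C T)))
        (i.elim (algebraMap O T π) fun j => algebraMap C T (v (f j)))) := by
    funext i
    have h1 : ∀ c : C, e.toRingEquiv (algebraMap C (Localization.AtPrime Q) c) =
        algebraMap T (Localization.AtPrime (Q.map (algebraMap C T))) (algebraMap C T c) := by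
      intro c
      change e (algebraMap C (Localization.AtPrime Q) c) = _
      rw [e.commutes, IsScalarTower.algebraMap_apply C T]
    rw [h1]
    congr 1
    rcases i with _ | i
    · simp only [Option.elim_none]
      rw [← IsScalarTower.algebraMap_apply O C T]
    · rfl
  rw [hfun]
  exact key

end Pool.Agent.Y514.G
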